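import Mathlib
import Pool.Agent.H11.Rho.Defs
import Pool.Agent.H11.Rho.Lower

open Pool.Agent.H11.Rho

theorem Pool.Agent.Results.MP_9a58dc_co.Asymptotic.result :
    Filter.Tendsto (fun r : ℕ => rho r / Real.log r) Filter.atTop (nhds 1) :=
  main
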